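import Pool.Agent.Y675.LN.Stm

set_option autoImplicit false

/-!
Project LN (owner helper675), task FIB: the fibre bounds `3 ^ om M`, by the Chinese remainder
theorem from the case of a prime power modulus.
-/

open Pool.Agent.Y675.LN

namespace Pool.Agent.Y884.LN

/-- the fibre of a linear form with integral coefficients -/
def Fb (k A M : ℕ) (α β : ℤ) (w : ZMod M) : Set (ZMod M × ZMod M) :=
  {x ∈ S k A M | (α : ZMod M) * x.1 + (β : ZMod M) * x.2 = w}

theorem map_mem {k A M m : ℕ} (π : ZMod M →+* ZMod m) {α β : ℤ} {w : ZMod M}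
    {x : ZMod M × ZMod M} (hx : x ∈ Fb k A M α β w) : (π x.1, π x.2) ∈ Fb k A m α β (π w) := by
  obtain ⟨⟨h1, h2⟩, h3⟩ := hx
  refine ⟨⟨?_, ?_⟩, ?_⟩
  · have := congrArg π h1
    rw [map_natCast] at this
    rw [← this]
    have e3 : π 3 = 3 := map_ofNat π 3
    simp [F, e3]
  · have := h2.map π
    have e : π (E (k : ZMod M) x.1 x.2) = E (k : ZMod m) (π x.1) (π x.2) := by
      have e3 : π 3 = 3 := map_ofNat π 3
      have e9 : π 9 = 9 := map_ofNat π 9
      have e12 : π 12 = 12 := map_ofNat π 12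
      have e27 : π 27 = 27 := map_ofNat π 27
      simp [E, e3, e9, e12, e27]
    rw [e] at this
    exact this
  · rw [← h3, map_add, map_mul, map_mul, map_intCast, map_intCast]

theorem gen (k A : ℕ) (α β : ℤ)
    (h : ∀ p n : ℕ, p.Prime → ¬ p ∣ A → ∀ w : ZMod (p ^ n), (Fb k A (p ^ n) α β w).ncard ≤ 3)
    (M : ℕ) : 0 < M → Nat.Coprime A M → ∀ w : ZMod M, (Fb k A M α β w).ncard ≤ 3 ^ om M := by
  induction M using Nat.recOnPosPrimePosCoprime with
  | prime_pow p n hp hn =>
    intro _ hA w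
    have h1 : ¬ p ∣ A := by
      intro hd
      have h2 : p ∣ Nat.gcd A (p ^ n) := Nat.dvd_gcd hd (dvd_pow_self p hn.ne')
      rw [hA] at h2
      exact hp.one_lt.ne' (Nat.dvd_one.1 h2)
    have h3 : om (p ^ n) = 1 := by
      unfold om
      rw [Nat.primeFactors_prime_pow hn.ne' hp, Finset.card_singleton]
    rw [h3, pow_one]
    exact h p n hp h1 w
  | zero => intro h0; exact absurd h0 (lt_irrefl 0)
  | one =>
    intro _ _ w
    have h3 : om 1 = 0 := by simp [om]
    rw [h3, pow_zero]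
    refine Set.ncard_le_one_iff_subsingleton.2 ?_
    intro x _ y _
    have : Subsingleton (ZMod 1 × ZMod 1) := inferInstance
    exact Subsingleton.elim x y
  | coprime a b ha hb hab iha ihb =>
    intro _ hA w
    have : NeZero a := ⟨by omega⟩
    have : NeZero b := ⟨by omega⟩
    have hAa : Nat.Coprime A a := Nat.Coprime.coprime_dvd_right (Dvd.intro b rfl) hA
    have hAb : Nat.Coprime A b := Nat.Coprime.coprime_dvd_right (Dvd.intro_left a rfl) hA
    set e := ZMod.chineseRemainder hab with he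
    set π₁ : ZMod (a * b) →+* ZMod a := (RingHom.fst _ _).comp e.toRingHom with h1
    set π₂ : ZMod (a * b) →+* ZMod b := (RingHom.snd _ _).comp e.toRingHom with h2
    have hinj : ∀ x y : ZMod (a * b), π₁ x = π₁ y → π₂ x = π₂ y → x = y := by
      intro x y hx hy
      apply e.injective
      exact Prod.ext hx hy
    have h3 : (Fb k A (a * b) α β w).ncard ≤
        (Fb k A a α β (π₁ w) ×ˢ Fb k A b α β (π₂ w)).ncard := by
      refine Set.ncard_le_ncard_of_injOn (fun x => ((π₁ x.1, π₁ x.2), (π₂ x.1, π₂ x.2))) ?_ ?_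
        (Set.toFinite _)
      · intro x hx
        exact Set.mk_mem_prod (map_mem π₁ hx) (map_mem π₂ hx)
      · intro x _ y _ hxy
        simp only [Prod.mk.injEq] at hxy
        obtain ⟨⟨c1, c2⟩, c3, c4⟩ := hxy
        exact Prod.ext (hinj _ _ c1 c3) (hinj _ _ c2 c4)
    rw [Set.ncard_prod] at h3
    have h4 : om (a * b) = om a + om b := by
      unfold om
      rw [Nat.Coprime.primeFactors_mul hab,
        Finset.card_union_of_disjoint (Nat.Coprime.disjoint_primeFactors hab)]
    rw [h4, pow_add]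
    exact h3.trans (Nat.mul_le_mul (iha (by omega) hAa _) (ihb (by omega) hAb _))

/-- **Task FIB.** -/
theorem t (h : S_FIBP) : S_FIB := by
  intro k A M hM hA w
  have e1 : ∀ (m : ℕ) (v : ZMod m), Fb k A m 1 0 v = {x ∈ S k A m | x.1 = v} := by
    intro m v
    unfold Fb
    simp
  have e2 : ∀ (m : ℕ) (v : ZMod m), Fb k A m 0 1 v = {x ∈ S k A m | x.2 = v} := by
    intro m v
    unfold Fb
    simp
  have e3 : ∀ (m : ℕ) (v : ZMod m), Fb k A m 1 (-(3 * k)) v =
      {x ∈ S k A m | x.1 - 3 * (k : ZMod m) * x.2 = v} := by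
    intro m v
    unfold Fb
    ext x
    simp [sub_eq_add_neg]
  have e4 : ∀ (m : ℕ) (v : ZMod m), Fb k A m 1 (3 * k) v =
      {x ∈ S k A m | x.1 + 3 * (k : ZMod m) * x.2 = v} := by
    intro m v
    unfold Fb
    ext x
    simp
  refine ⟨?_, ?_, ?_, ?_⟩
  · rw [← e1]
    exact gen k A 1 0 (fun p n hp hpA v => by rw [e1]; exact (h k A p n hp hpA v).1) M hM hA w
  · rw [← e2]
    exact gen k A 0 1 (fun p n hp hpA v => by rw [e2]; exact (h k A p n hp hpA v).2.1) M hM hA w
  · rw [← e3]
    exact gen k A 1 (-(3 * k)) (fun p n hp hpA v => by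
      rw [e3]; exact (h k A p n hp hpA v).2.2.1) M hM hA w
  · rw [← e4]
    exact gen k A 1 (3 * k) (fun p n hp hpA v => by
      rw [e4]; exact (h k A p n hp hpA v).2.2.2) M hM hA w

end Pool.Agent.Y884.LN
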